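import Pool.Agent.MP_c09afc_pr.Sing

set_option linter.unusedSectionVars false
set_option linter.unusedSimpArgs false
set_option linter.unusedVariables false

namespace Pool.Agent.Results.MP_c09afc_pr.NotUnique

open Filter MeasureTheory Pool.Agent.MP_c09afc_pr

/-- The nearest-neighbour graph of `ℤ^d`: two vertices are adjacent if their `ℓ¹` distance is one. -/
def lattice (d : ℕ) : SimpleGraph (Fin d → ℤ) where
  Adj x y := ∑ i, |x i - y i| = 1
  symm := ⟨fun x y h => by
    rw [← h]
    exact Finset.sum_congr rfl fun i _ => abs_sub_comm _ _⟩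
  loopless := ⟨fun x h => by simp at h⟩

/-- Rotor configurations on `ℤ^d`: a neighbour of `x` for every vertex `x`. They carry the product
sigma-algebra. -/
abbrev Rotors (d : ℕ) : Type := ∀ x : Fin d → ℤ, (lattice d).neighborSet x

/-- Local mechanisms: at every vertex a permutation of its neighbour set with a single orbit. -/
structure Mechanism (d : ℕ) where
  perm : ∀ x : Fin d → ℤ, Equiv.Perm ((lattice d).neighborSet x)
  single_orbit : ∀ x, ∀ y z : (lattice d).neighborSet x, ∃ n : ℕ, (perm x)^[n] y = z

/-- One step of rotor walk: turn the rotor at the current position, then move along it. -/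
noncomputable def step {d : ℕ} (τ : Mechanism d) (s : (Fin d → ℤ) × Rotors d) :
    (Fin d → ℤ) × Rotors d :=
  ((τ.perm s.1 (s.2 s.1) : Fin d → ℤ), Function.update s.2 s.1 (τ.perm s.1 (s.2 s.1)))

/-- The position and the configuration of rotor walk from `a` with initial configuration `ρ`
after `t` steps. -/
noncomputable def walk {d : ℕ} (τ : Mechanism d) (a : Fin d → ℤ) (ρ : Rotors d) (t : ℕ) :
    (Fin d → ℤ) × Rotors d :=
  (step τ)^[t] (a, ρ)

/-- `μ` is infinite-step stationary for rotor walk started at `a` with mechanisms `τ`: it is a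
probability measure, the walk almost surely visits every vertex finitely often, and the final
configuration `σ ρ` has again law `μ`. -/
structure InfiniteStepStationary {d : ℕ} (τ : Mechanism d) (a : Fin d → ℤ)
    (μ : Measure (Rotors d)) : Prop where
  prob : IsProbabilityMeasure μ
  transient : ∀ᵐ ρ ∂μ, ∀ x, {t : ℕ | (walk τ a ρ t).1 = x}.Finite
  stationary : ∃ σ : Rotors d → Rotors d, AEMeasurable σ μ ∧
    (∀ᵐ ρ ∂μ, ∀ x, ∀ᶠ t in atTop, (walk τ a ρ t).2 x = σ ρ x) ∧ μ.map σ = μ

theorem adj_nbr {d : ℕ} (x : Fin d → ℤ) (δ : Dir d) : nbr x δ ∈ (lattice d).neighborSet x := by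
  change ∑ i, |x i - nbr x δ i| = 1
  rw [Finset.sum_eq_single δ.1]
  · unfold nbr
    rw [Function.update_self]
    split_ifs <;> simp
  · intro i _ hi
    unfold nbr
    rw [Function.update_of_ne hi]
    simp
  · intro h; exact absurd (Finset.mem_univ _) h

theorem exists_dir {d : ℕ} (x y : Fin d → ℤ) (h : (lattice d).Adj x y) :
    ∃ δ : Dir d, nbr x δ = y := by
  change ∑ i, |x i - y i| = 1 at h
  have hex : ∃ i, x i ≠ y i := by
    by_contra hcon
    push Not at hcon
    rw [Finset.sum_eq_zero] at h
    · exact zero_ne_one h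
    · intro i _
      rw [hcon i, sub_self, abs_zero]
  obtain ⟨i, hi⟩ := hex
  have h1 : 1 ≤ |x i - y i| := Int.one_le_abs (sub_ne_zero.2 hi)
  rw [← Finset.add_sum_erase _ _ (Finset.mem_univ i)] at h
  have h2 : 0 ≤ ∑ j ∈ Finset.univ.erase i, |x j - y j| :=
    Finset.sum_nonneg fun _ _ => abs_nonneg _
  have h3 : ∑ j ∈ Finset.univ.erase i, |x j - y j| = 0 := by omega
  have h4 : |x i - y i| = 1 := by omega
  have h5 : ∀ j, j ≠ i → x j = y j := by
    intro j hj
    have := (Finset.sum_eq_zero_iff_of_nonneg (fun _ _ => abs_nonneg _)).1 h3 j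
      (Finset.mem_erase.2 ⟨hj, Finset.mem_univ _⟩)
    exact sub_eq_zero.1 (abs_eq_zero.1 this)
  rcases (abs_eq (by norm_num : (0 : ℤ) ≤ 1)).1 h4 with h6 | h6
  · refine ⟨(i, false), ?_⟩
    funext j
    unfold nbr
    by_cases hj : j = i
    · subst hj
      rw [Function.update_self]
      simp only [Bool.false_eq_true, if_false]
      omega
    · rw [Function.update_of_ne hj]
      exact h5 j hj
  · refine ⟨(i, true), ?_⟩
    funext j
    unfold nbr
    by_cases hj : j = i
    · subst hj
      rw [Function.update_self]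
      simp only [if_true]
      omega
    · rw [Function.update_of_ne hj]
      exact h5 j hj

/-- Directions at `x` are in bijection with neighbours of `x`. -/
noncomputable def dirEquiv {d : ℕ} (x : Fin d → ℤ) : Dir d ≃ (lattice d).neighborSet x :=
  Equiv.ofBijective (fun δ => ⟨nbr x δ, adj_nbr x δ⟩)
    ⟨fun _ _ h => nbr_dir_injective x (congrArg Subtype.val h), fun y => by
      obtain ⟨δ, hδ⟩ := exists_dir x y y.2
      exact ⟨δ, Subtype.ext hδ⟩⟩

theorem dirEquiv_val {d : ℕ} (x : Fin d → ℤ) (δ : Dir d) : (dirEquiv x δ : Fin d → ℤ) = nbr x δ :=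
  rfl

/-- Encoding. -/
noncomputable def enc {d : ℕ} (T : Cfg d) : Rotors d := fun x => dirEquiv x (T x)

/-- Decoding. -/
noncomputable def dec {d : ℕ} (ρ : Rotors d) : Cfg d := fun x => (dirEquiv x).symm (ρ x)

theorem dec_enc {d : ℕ} (T : Cfg d) : dec (enc T) = T := by
  funext x
  simp [dec, enc]

theorem measurable_enc {d : ℕ} : Measurable (enc : Cfg d → Rotors d) := by
  rw [measurable_pi_iff]
  intro x
  exact (measurable_of_countable (dirEquiv x)).comp (measurable_pi_apply x)

theorem measurable_dec {d : ℕ} : Measurable (dec : Rotors d → Cfg d) := by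
  rw [measurable_pi_iff]
  intro x
  exact (measurable_of_countable (dirEquiv x).symm).comp (measurable_pi_apply x)

/-- The mechanism in coordinates. -/
noncomputable def mech {d : ℕ} (τ : Mechanism d) (x : Fin d → ℤ) : Equiv.Perm (Dir d) :=
  ((dirEquiv x).trans (τ.perm x)).trans (dirEquiv x).symm

theorem mech_cycle {d : ℕ} (τ : Mechanism d) (x : Fin d → ℤ) (δ δ' : Dir d) :
    (mech τ x).SameCycle δ δ' := by
  obtain ⟨n, hn⟩ := τ.single_orbit x (dirEquiv x δ) (dirEquiv x δ')
  refine ⟨n, ?_⟩
  have key : ∀ m : ℕ, dirEquiv x (((mech τ x) ^ m) δ) = (τ.perm x)^[m] (dirEquiv x δ) := by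
    intro m
    induction m with
    | zero => simp
    | succ m ih =>
      rw [pow_succ', Equiv.Perm.mul_apply, Function.iterate_succ_apply', ← ih]
      simp [mech]
  have h := key n
  rw [hn] at h
  rw [zpow_natCast]
  exact (dirEquiv x).injective h

theorem step_enc {d : ℕ} (τ : Mechanism d) (x : Fin d → ℤ) (T : Cfg d) :
    step τ (x, enc T) = ((stp nbr (mech τ) (x, T)).1, enc (stp nbr (mech τ) (x, T)).2) := by
  have h : τ.perm x (enc T x) = dirEquiv x (mech τ x (T x)) := by
    simp [mech, enc]
  unfold step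
  simp only
  rw [h]
  refine Prod.ext ?_ ?_
  · rfl
  · funext y
    by_cases hy : y = x
    · subst hy
      simp [enc, stp]
    · simp [enc, stp, Function.update_of_ne hy]

theorem walk_enc {d : ℕ} (τ : Mechanism d) (a : Fin d → ℤ) (T : Cfg d) (t : ℕ) :
    walk τ a (enc T) t = (pos (mech τ) a t T, enc (cfg (mech τ) a t T)) := by
  induction t with
  | zero => rfl
  | succ t ih =>
    unfold walk at ih ⊢
    rw [Function.iterate_succ_apply', ih, step_enc]
    have := pos_cfg_stp (mech τ) a T t
    rw [← this]

theorem iss_enc {d : ℕ} (τ : Mechanism d) (a : Fin d → ℤ) (ν : Measure (Cfg d))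
    (h : ISS (mech τ) a ν) : InfiniteStepStationary τ a (ν.map enc) := by
  have hp := h.prob
  have hemb : MeasurableEmbedding (enc : Cfg d → Rotors d) :=
    measurable_enc.measurableEmbedding (fun T T' hT => by
      have := congrArg dec hT
      rwa [dec_enc, dec_enc] at this)
  have hm := measurable_finalCfg (mech τ) a
  refine ⟨Measure.isProbabilityMeasure_map measurable_enc.aemeasurable, ?_,
    fun ρ => enc (finalCfg (mech τ) a (dec ρ)),
    (measurable_enc.comp (hm.comp measurable_dec)).aemeasurable, ?_, ?_⟩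
  · rw [hemb.ae_map_iff]
    filter_upwards [h.transient] with T hT x
    simpa only [walk_enc] using hT x
  · rw [hemb.ae_map_iff]
    filter_upwards [h.transient] with T hT x
    filter_upwards [eventually_cfg (mech τ) a T hT x] with t ht
    rw [walk_enc, dec_enc]
    change enc (cfg (mech τ) a t T) x = enc (finalCfg (mech τ) a T) x
    unfold enc
    rw [ht]
  · have hm2 : Measurable fun ρ : Rotors d => enc (finalCfg (mech τ) a (dec ρ)) :=
      measurable_enc.comp (hm.comp measurable_dec)
    rw [Measure.map_map hm2 measurable_enc]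
    have e : (fun ρ => enc (finalCfg (mech τ) a (dec ρ))) ∘ (enc : Cfg d → Rotors d)
        = enc ∘ finalCfg (mech τ) a := by
      funext T
      simp only [Function.comp, dec_enc]
    rw [e, ← Measure.map_map measurable_enc hm, h.stationary]

/-- For all `d ≥ 3`, all starting vertices and all mechanisms, there are infinitely many pairwise
mutually singular infinite-step stationary measures. -/
theorem result {d : ℕ} (hd : 3 ≤ d) (τ : Mechanism d) (a : Fin d → ℤ) :
    ∃ μ : ℕ → Measure (Rotors d), (∀ n, InfiniteStepStationary τ a (μ n)) ∧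
      Pairwise fun m n => μ m ⟂ₘ μ n := by
  obtain ⟨ν, hν, hsing⟩ := exists_many hd (mech τ) (mech_cycle τ) a
  refine ⟨fun n => (ν n).map enc, fun n => iss_enc τ a (ν n) (hν n), fun m n hmn => ?_⟩
  obtain ⟨s, hs, h1, h2⟩ := hsing hmn
  refine ⟨dec ⁻¹' s, measurable_dec hs, ?_, ?_⟩
  · rw [Measure.map_apply measurable_enc (measurable_dec hs), ← Set.preimage_comp]
    have : dec ∘ (enc : Cfg d → Rotors d) = id := funext dec_enc
    rw [this]
    exact h1
  · rw [← Set.preimage_compl, Measure.map_apply measurable_enc (measurable_dec hs.compl),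
      ← Set.preimage_comp]
    have : dec ∘ (enc : Cfg d → Rotors d) = id := funext dec_enc
    rw [this]
    exact h2

end Pool.Agent.Results.MP_c09afc_pr.NotUnique
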